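import Pool.Agent.Lib.H44W.W0
import Pool.Agent.Lib.H81A.Defs
/-!
H37T (MP_443e5f, candidate T): assembly of the modules A (Heath-Brown's identity in seminorm form), B (bilinear pieces), C (one smooth variable), D (near-diagonal pieces) to the inverse theorem for the von Mangoldt function.

This file: the map P -> |TF n (P o toNat) W f g| is a seminorm which sees only the values at 1, ..., 2 n.
-/
namespace Pool.Agent.H37T
open Finset Pool.Agent.H44W

/-- The function on the integers given by a function on the natural numbers. -/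
noncomputable def lft (P : ℕ → ℝ) (m : ℤ) : ℂ := ((P m.toNat : ℝ) : ℂ)

/-- TF as a linear map in the kernel. -/
noncomputable def tfL (n : ℕ) (W f g : ℤ → ℂ) : (ℕ → ℝ) →ₗ[ℝ] ℂ where
  toFun P := TF n (lft P) W f g
  map_add' P Q := by
    unfold TF lft
    rw [← Finset.sum_add_distrib]
    refine Finset.sum_congr rfl fun x _ => ?_
    rw [← Finset.sum_add_distrib]
    refine Finset.sum_congr rfl fun y _ => ?_
    rw [Pi.add_apply]
    push_cast
    ring
  map_smul' c P := by
    unfold TF lft
    rw [RingHom.id_apply, Finset.smul_sum]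
    refine Finset.sum_congr rfl fun x _ => ?_
    rw [Finset.smul_sum]
    refine Finset.sum_congr rfl fun y _ => ?_
    rw [Pi.smul_apply, Complex.real_smul, smul_eq_mul]
    push_cast
    ring

/-- The seminorm. -/
noncomputable def tfS (n : ℕ) (W f g : ℤ → ℂ) : Seminorm ℝ (ℕ → ℝ) := (normSeminorm ℝ ℂ).comp (tfL n W f g)

theorem tfS_apply (n : ℕ) (W f g : ℤ → ℂ) (P : ℕ → ℝ) : tfS n W f g P = ‖TF n (lft P) W f g‖ := rfl

theorem TF_congr (n : ℕ) {F G : ℤ → ℂ} (W f g : ℤ → ℂ) (h : ∀ m : ℤ, 2 ≤ m → m ≤ 2 * n → F m = G m) :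
    TF n F W f g = TF n G W f g := by
  unfold TF
  refine Finset.sum_congr rfl fun x hx => Finset.sum_congr rfl fun y hy => ?_
  rw [Finset.mem_Icc] at hx hy
  rw [h (x + y) (by omega) (by omega)]

theorem tfS_loc (n : ℕ) (W f g : ℤ → ℂ) : Pool.Agent.Lib.H81A.Loc (2 * n) (tfS n W f g) := by
  intro P hP
  rw [tfS_apply, TF_congr n (G := fun _ => 0) W f g]
  · unfold TF
    simp
  · intro m h1 h2
    unfold lft
    rw [hP m.toNat (by omega) (by omega), Complex.ofReal_zero]

end Pool.Agent.H37T
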