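import Pool.Agent.Lib.H37T.A0
/-!
H37T: Dirichlet convolutions as sums over finite sets.
-/
namespace Pool.Agent.H37T
open Finset Pool.Agent.H44W

theorem conv_eq (m : ℕ) (hm : m ≠ 0) (S T : Finset ℕ) (α β : ℕ → ℝ) (hS : ∀ a, α a ≠ 0 → a ∈ S) (hT : ∀ b, β b ≠ 0 → b ∈ T) :
    ∑ x ∈ m.divisorsAntidiagonal, α x.1 * β x.2 = ∑ a ∈ S, ∑ b ∈ T, if a * b = m then α a * β b else 0 := by
  classical
  rw [← Finset.sum_product (s := S) (t := T) (f := fun x : ℕ × ℕ => if x.1 * x.2 = m then α x.1 * β x.2 else 0),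
    ← Finset.sum_filter]
  symm
  refine Finset.sum_subset_zero_on_sdiff ?_ ?_ (fun _ _ => rfl)
  · intro x hx
    rw [Finset.mem_filter] at hx
    exact Nat.mem_divisorsAntidiagonal.2 ⟨hx.2, hm⟩
  · intro x hx
    rw [Finset.mem_sdiff, Finset.mem_filter, Finset.mem_product] at hx
    by_contra h
    have h1 : α x.1 ≠ 0 := fun h0 => h (by rw [h0, zero_mul])
    have h2 : β x.2 ≠ 0 := fun h0 => h (by rw [h0, mul_zero])
    exact hx.2 ⟨⟨hS _ h1, hT _ h2⟩, (Nat.mem_divisorsAntidiagonal.1 hx.1).1⟩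

end Pool.Agent.H37T
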