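import Pool.Agent.Lib.H37T.A1
import Pool.Agent.Lib.H44W.W1
/-!
H37T: the hypothesis H2 of Heath-Brown's identity (module A) from module B (ClassTwo).
-/
namespace Pool.Agent.H37T
open Finset Pool.Agent.H44W

theorem TF_add (n : ℕ) (F G W f g : ℤ → ℂ) : TF n (fun m => F m + G m) W f g = TF n F W f g + TF n G W f g := by
  unfold TF
  rw [← Finset.sum_add_distrib]
  refine Finset.sum_congr rfl fun x _ => ?_
  rw [← Finset.sum_add_distrib]
  refine Finset.sum_congr rfl fun y _ => ?_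
  ring

/-- A convolution with supports in `[K, 4K)`, `[M, 4M)` is a sum of four pieces. -/
theorem conv_tII (m : ℤ) (hm : 1 ≤ m) (K M : ℕ) (α β : ℕ → ℝ) (hS : ∀ a, α a ≠ 0 → K ≤ a ∧ a < 4 * K)
    (hT : ∀ b, β b ≠ 0 → M ≤ b ∧ b < 4 * M) :
    lft (fun m => ∑ x ∈ m.divisorsAntidiagonal, α x.1 * β x.2) m =
      (tII K M (fun a => (α a : ℂ)) (fun b => (β b : ℂ)) m + tII K (2 * M) (fun a => (α a : ℂ)) (fun b => (β b : ℂ)) m) +
      (tII (2 * K) M (fun a => (α a : ℂ)) (fun b => (β b : ℂ)) m + tII (2 * K) (2 * M) (fun a => (α a : ℂ)) (fun b => (β b : ℂ)) m) := by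
  have h0 : ((m.toNat : ℕ) : ℤ) = m := Int.toNat_of_nonneg (by omega)
  have h1 : m.toNat ≠ 0 := by omega
  have e1 : ∀ (K M : ℕ), tII K M (fun a => (α a : ℂ)) (fun b => (β b : ℂ)) m =
      ((∑ a ∈ Ico K (2 * K), ∑ b ∈ Ico M (2 * M), if a * b = m.toNat then α a * β b else 0 : ℝ) : ℂ) := by
    intro K M
    unfold tII
    push_cast
    refine Finset.sum_congr rfl fun a _ => Finset.sum_congr rfl fun b _ => ?_
    by_cases h : a * b = m.toNat
    · rw [if_pos h, if_pos (by omega), Complex.ofReal_mul]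
    · rw [if_neg h, if_neg (by intro h2; apply h; omega), Complex.ofReal_zero]
  show ((∑ x ∈ m.toNat.divisorsAntidiagonal, α x.1 * β x.2 : ℝ) : ℂ) = _
  rw [conv_eq m.toNat h1 (Ico K (4 * K)) (Ico M (4 * M)) α β (fun a ha => Finset.mem_Ico.2 (hS a ha)) (fun b hb => Finset.mem_Ico.2 (hT b hb)),
    e1, e1, e1, e1]
  rw [← Finset.sum_Ico_consecutive (m := K) (n := 2 * K) (k := 4 * K) _ (by omega) (by omega)]
  have e2 : ∀ (a : ℕ), ∑ b ∈ Ico M (4 * M), (if a * b = m.toNat then α a * β b else 0) =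
      ∑ b ∈ Ico M (2 * M), (if a * b = m.toNat then α a * β b else 0) + ∑ b ∈ Ico (2 * M) (2 * (2 * M)), (if a * b = m.toNat then α a * β b else 0) := by
    intro a
    rw [show 2 * (2 * M) = 4 * M by ring]
    exact (Finset.sum_Ico_consecutive _ (by omega) (by omega)).symm
  rw [Finset.sum_congr rfl fun a _ => e2 a, Finset.sum_congr (rfl : Ico (2 * K) (4 * K) = _) fun a _ => e2 a, Finset.sum_add_distrib, Finset.sum_add_distrib,
    show 4 * K = 2 * (2 * K) by ring]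
  push_cast
  ring

/-- **H2** from module B. -/
theorem h2_of (η : ℝ) (hη : 0 < η) (C : ℕ) (h : ClassTwo C) : ∃ n0 : ℕ, ∀ n : ℕ, n0 ≤ n → ∀ c D : ℝ,
    2 ≤ D → (∀ m : ℕ, 1 ≤ m → m ≤ 2 * n → (m.divisors.card : ℝ) ≤ D) → D ^ C ≤ ((2 * n : ℕ) : ℝ) ^ c → D ^ C ≤ (n:ℝ) ^ η →
    ∀ W f g : ℤ → ℂ, (∀ x, ‖W x‖ ≤ 1) → (∀ x, ‖f x‖ ≤ 1) → (∀ x, ‖g x‖ ≤ 1) →
    (∀ th : ℝ, ‖∑ z ∈ Icc (1:ℤ) n, g z * ee (th * z)‖ < (n:ℝ) / D ^ C) →
      Pool.Agent.Lib.H81A.H2 c η (2 * n) (tfS n W f g) (4 * ((n:ℝ) ^ 2 / D)) := by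
  have hlim : ∀ᶠ n : ℕ in Filter.atTop, (32 : ℝ) ≤ (n : ℝ) ^ η :=
    ((tendsto_rpow_atTop hη).comp tendsto_natCast_atTop_atTop).eventually_ge_atTop 32
  obtain ⟨n1, hn1⟩ := Filter.eventually_atTop.1 hlim
  refine ⟨max n1 1, fun n hn c D hD hdiv hDK hDη W f g hW hf hg hth => ?_⟩
  have hn2 : (32 : ℝ) ≤ (n : ℝ) ^ η := hn1 n (le_trans (le_max_left _ _) hn)
  have hn3 : (1 : ℝ) ≤ n := by exact_mod_cast le_trans (le_max_right n1 1) hn
  have hn0 : (0 : ℝ) < n := by linarith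
  intro K M hK1 hK2 hM1 α β hα hβ hαs hβs
  set K' : ℕ := ⌈K⌉₊ with hK'
  set M' : ℕ := ⌈M⌉₊ with hM'
  have hDC : (1 : ℝ) ≤ D ^ C := one_le_pow₀ (by linarith)
  have hK0 : (1 : ℝ) ≤ K := le_trans hDC (le_trans hDK hK1)
  have hK'1 : 1 ≤ K' := Nat.one_le_ceil_iff.2 (by linarith)
  have hM'1 : 1 ≤ M' := Nat.one_le_ceil_iff.2 (by linarith)
  have hKc : K ≤ K' := Nat.le_ceil K
  have hMc : M ≤ M' := Nat.le_ceil M
  have hS : ∀ a, α a ≠ 0 → K' ≤ a ∧ a < 4 * K' := by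
    intro a ha
    obtain ⟨h1, h2⟩ := hαs a ha
    refine ⟨Nat.ceil_le.2 h1, ?_⟩
    have : (a : ℝ) ≤ 2 * K' := le_trans h2 (by linarith)
    have h3 : a ≤ 2 * K' := by exact_mod_cast this
    omega
  have hT : ∀ b, β b ≠ 0 → M' ≤ b ∧ b < 4 * M' := by
    intro b hb
    obtain ⟨h1, h2⟩ := hβs b hb
    refine ⟨Nat.ceil_le.2 h1, ?_⟩
    have : (b : ℝ) ≤ 2 * M' := le_trans h2 (by linarith)
    have h3 : b ≤ 2 * M' := by exact_mod_cast this
    omega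
  have hup : (2 * (K' : ℝ)) ^ 2 * D ^ C ≤ n := by
    have h1 : (K' : ℝ) ≤ 2 * K := by
      have := Nat.ceil_lt_add_one (by linarith : (0:ℝ) ≤ K)
      linarith
    have h2n : (0:ℝ) < ((2 * n : ℕ) : ℝ) := by push_cast; linarith
    have h2 : K ^ 2 ≤ ((2 * n : ℕ) : ℝ) ^ (1 - 2 * η) := by
      have h3 : ((2 * n : ℕ) : ℝ) ^ (1 - 2 * η) = (((2 * n : ℕ) : ℝ) ^ (1 / 2 - η)) ^ 2 := by
        rw [← Real.rpow_natCast, ← Real.rpow_mul h2n.le]
        congr 1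
        push_cast
        ring
      rw [h3]
      exact pow_le_pow_left₀ (by linarith) hK2 2
    have h3 : ((2 * n : ℕ) : ℝ) ^ (1 - 2 * η) ≤ 2 * (n : ℝ) ^ (1 - 2 * η) := by
      push_cast
      rw [Real.mul_rpow (by norm_num) (by linarith)]
      refine mul_le_mul_of_nonneg_right ?_ (Real.rpow_nonneg (by linarith) _)
      calc (2:ℝ) ^ (1 - 2 * η) ≤ 2 ^ (1 : ℝ) := Real.rpow_le_rpow_of_exponent_le (by norm_num) (by linarith)
        _ = 2 := Real.rpow_one 2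
    have h4 : (2 * (K' : ℝ)) ^ 2 ≤ 32 * (n : ℝ) ^ (1 - 2 * η) := by
      have h5 : (2 * (K' : ℝ)) ^ 2 ≤ (4 * K) ^ 2 := pow_le_pow_left₀ (by positivity) (by linarith) 2
      have h6 : (4 * K) ^ 2 = 16 * K ^ 2 := by ring
      linarith
    have h7 : (0:ℝ) ≤ (n : ℝ) ^ (1 - 2 * η) := Real.rpow_nonneg hn0.le _
    calc (2 * (K' : ℝ)) ^ 2 * D ^ C ≤ (32 * (n : ℝ) ^ (1 - 2 * η)) * (n:ℝ) ^ η := by
          refine mul_le_mul h4 hDη (by positivity) (by positivity)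
      _ ≤ ((n:ℝ) ^ η * (n : ℝ) ^ (1 - 2 * η)) * (n:ℝ) ^ η := by gcongr
      _ = (n:ℝ) ^ (1:ℝ) := by
          rw [← Real.rpow_add hn0, ← Real.rpow_add hn0]
          congr 1
          ring
      _ = n := Real.rpow_one _
  have hlow : D ^ C ≤ (K' : ℝ) := le_trans hDK (le_trans hK1 hKc)
  have hpc : ∀ K1 M1 : ℕ, D ^ C ≤ (K1 : ℝ) → (K1 : ℝ) ≤ 2 * K' →
      ‖TF n (tII K1 M1 (fun a => (α a : ℂ)) (fun b => (β b : ℂ))) W f g‖ ≤ (n:ℝ) ^ 2 / D := by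
    intro K1 M1 h1 h2
    by_contra hcon
    obtain ⟨th, hth'⟩ := h n K1 M1 D hD hdiv h1 (by
        refine le_trans ?_ hup
        gcongr) (fun a => (α a : ℂ)) (fun b => (β b : ℂ))
      (fun a => by rw [Complex.norm_real]; exact hα a) (fun b => by rw [Complex.norm_real]; exact hβ b) W f g hW hf hg (le_of_lt (not_le.1 hcon))
    exact absurd (hth th) (not_lt.2 hth')
  rw [tfS_apply, TF_congr n W f g (fun m hm1 hm2 => conv_tII m (by omega) K' M' α β hS hT), TF_add, TF_add, TF_add]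
  have c1 := hpc K' M' hlow (by linarith [Nat.cast_nonneg (α := ℝ) K'])
  have c2 := hpc K' (2 * M') hlow (by linarith [Nat.cast_nonneg (α := ℝ) K'])
  have c3 := hpc (2 * K') M' (by push_cast; linarith [Nat.cast_nonneg (α := ℝ) K']) (by push_cast; exact le_refl _)
  have c4 := hpc (2 * K') (2 * M') (by push_cast; linarith [Nat.cast_nonneg (α := ℝ) K']) (by push_cast; exact le_refl _)
  refine (norm_add_le _ _).trans ?_
  have d1 := norm_add_le (TF n (tII K' M' (fun a => (α a : ℂ)) (fun b => (β b : ℂ))) W f g) (TF n (tII K' (2 * M') (fun a => (α a : ℂ)) (fun b => (β b : ℂ))) W f g)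
  have d2 := norm_add_le (TF n (tII (2 * K') M' (fun a => (α a : ℂ)) (fun b => (β b : ℂ))) W f g) (TF n (tII (2 * K') (2 * M') (fun a => (α a : ℂ)) (fun b => (β b : ℂ))) W f g)
  linarith

end Pool.Agent.H37T
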