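import Pool.Agent.Lib.H37T.A2
import Pool.Agent.Lib.H81E.C4
/-!
H37T: the hypothesis H1 of Heath-Brown's identity from module C (H81E.type_one_real), and H3 from module D (DOut).
-/
namespace Pool.Agent.H37T
open Finset Pool.Agent.H44W

/-- The statement of module D. -/
def DOut (et0 : ℝ) (C n0 : ℕ) : Prop :=
  ∀ n : ℕ, n0 ≤ n → ∀ D : ℝ, (1 + Real.log n) ^ 10 ≤ D → (∀ m : ℕ, 1 ≤ m → m ≤ 2 * n → (m.divisors.card : ℝ) ≤ D) → D ^ C ≤ n → ∀ R : ℕ, (R : ℝ) ≤ D → ∀ A1 A2 B1 B2 : ℕ,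
    ((2 * n : ℕ) : ℝ) ^ (1 / 2 - 2 * et0) ≤ A1 → ((2 * n : ℕ) : ℝ) ^ (1 / 2 - 2 * et0) ≤ B1 → A2 ≤ 2 * A1 → B2 ≤ 2 * B1 →
    ∀ ga : ℕ → ℂ, (∀ q, ‖ga q‖ ≤ 1) → ∀ W f g : ℤ → ℂ, (∀ x, ‖W x‖ ≤ 1) → (∀ x, ‖f x‖ ≤ 1) → (∀ x, ‖g x‖ ≤ 1) →
    (n:ℝ) ^ 2 / D ≤ ‖TF n (fun m => ∑ q ∈ Icc 1 R, ga q * pd q (Ico (A1:ℤ) A2) (Ico (B1:ℤ) B2) m) W f g‖ →
    ∃ th : ℝ, (n:ℝ) / D ^ C ≤ ‖∑ z ∈ Icc (1:ℤ) n, g z * ee (th * z)‖

/-- **H1** from module C. -/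
theorem h1_of (n : ℕ) (hn : 1 ≤ n) (c : ℝ) (W f g : ℤ → ℂ) (hW : ∀ x, ‖W x‖ ≤ 1) (hf : ∀ x, ‖f x‖ ≤ 1)
    (s : ℝ) (hth : ∀ th : ℝ, ‖∑ z ∈ Icc (1:ℤ) n, g z * ee (th * z)‖ ≤ s) :
      Pool.Agent.Lib.H81A.H1 c (2 * n) (tfS n W f g) (20 * ((2 * n : ℕ) : ℝ) ^ (2 * c) * (1 + Real.log n) * n * s) := by
  intro B1 B2 hB1 hB2 γ hγ hγs
  set R : ℕ := ⌊((2 * n : ℕ) : ℝ) ^ (2 * c)⌋₊ with hR
  have hR1 : (R : ℝ) ≤ ((2 * n : ℕ) : ℝ) ^ (2 * c) := Nat.floor_le (Real.rpow_nonneg (Nat.cast_nonneg _) _)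
  obtain ⟨th, h1⟩ := Pool.Agent.H81E.type_one_real n hn R γ hγ (fun q hq => Nat.le_floor (hγs q hq).2) B1 B2 W f g hW hf
  have hlog : 0 ≤ Real.log n := Real.log_natCast_nonneg n
  have e : tfS n W f g (fun m => ∑ x ∈ m.divisorsAntidiagonal, γ x.1 * (if B1 ≤ x.2 ∧ x.2 < B2 then 1 else 0)) =
      ‖TF n (fun m => ((∑ x ∈ m.toNat.divisorsAntidiagonal, γ x.1 * (if B1 ≤ x.2 ∧ x.2 < B2 then 1 else 0) : ℝ) : ℂ)) W f g‖ := rfl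
  rw [e]
  refine h1.trans ?_
  have h2 : 0 ≤ ‖∑ z ∈ Icc (1:ℤ) n, g z * ee (th * z)‖ := norm_nonneg _
  have h3 : (0:ℝ) ≤ n := Nat.cast_nonneg n
  gcongr
  · norm_num
  · exact hth th

/-- The count of the near-diagonal piece over the natural numbers. -/
theorem pd_nat (m q A1 A2 B1 B2 : ℕ) :
    pd q (Ico (A1:ℤ) A2) (Ico (B1:ℤ) B2) (m:ℤ) =
      ((∑ a ∈ Ico A1 A2, ∑ b ∈ Ico B1 B2, if q * (a * b) = m then (1:ℝ) else 0 : ℝ) : ℂ) := by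
  unfold pd
  rw [Finset.card_filter, Finset.sum_product]
  push_cast
  have h1 : ∀ (u v : ℕ) (F : ℤ → ℂ), ∑ a ∈ Ico (u:ℤ) v, F a = ∑ a ∈ Ico u v, F (a : ℤ) := by
    intro u v F
    refine (Finset.sum_bij (fun (a : ℕ) _ => (a : ℤ)) ?_ ?_ ?_ ?_).symm
    · intro a ha
      rw [Finset.mem_Ico] at ha ⊢
      omega
    · intro a _ b _ hab
      exact_mod_cast hab
    · intro b hb
      rw [Finset.mem_Ico] at hb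
      exact ⟨b.toNat, by rw [Finset.mem_Ico]; omega, by omega⟩
    · intro a _
      rfl
  rw [h1]
  refine Finset.sum_congr rfl fun a _ => ?_
  rw [h1]
  refine Finset.sum_congr rfl fun b _ => ?_
  by_cases h : q * (a * b) = m
  · rw [if_pos h, if_pos (by rw [← h]; push_cast; ring), Complex.ofReal_one]
  · rw [if_neg h, if_neg, Complex.ofReal_zero]
    intro h2
    apply h
    have h3 : ((q * (a * b) : ℕ) : ℤ) = (m : ℤ) := by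
      rw [← h2]
      push_cast
      ring
    exact_mod_cast h3

theorem box_eq (k A1 A2 B1 B2 : ℕ) (hk : k ≠ 0) :
    (∑ y ∈ k.divisorsAntidiagonal, (if A1 ≤ y.1 ∧ y.1 < A2 then (1:ℝ) else 0) * (if B1 ≤ y.2 ∧ y.2 < B2 then (1:ℝ) else 0)) =
      ∑ a ∈ Ico A1 A2, ∑ b ∈ Ico B1 B2, if a * b = k then (1:ℝ) else 0 := by
  rw [conv_eq k hk (Ico A1 A2) (Ico B1 B2) (fun a => if A1 ≤ a ∧ a < A2 then (1:ℝ) else 0) (fun b => if B1 ≤ b ∧ b < B2 then (1:ℝ) else 0)]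
  · refine Finset.sum_congr rfl fun a ha => Finset.sum_congr rfl fun b hb => ?_
    rw [Finset.mem_Ico] at ha hb
    rw [if_pos ha, if_pos hb, mul_one]
  · intro a ha
    rw [Finset.mem_Ico]
    by_contra h
    exact ha (if_neg h)
  · intro b hb
    rw [Finset.mem_Ico]
    by_contra h
    exact hb (if_neg h)

/-- The pieces of H3 in terms of `pd`. -/
theorem conv_pd (m : ℕ) (hm : 1 ≤ m) (R A1 A2 B1 B2 : ℕ) (γ : ℕ → ℝ) (hγ : ∀ q, γ q ≠ 0 → 1 ≤ q ∧ q ≤ R) :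
    ((∑ x ∈ m.divisorsAntidiagonal, γ x.1 * ∑ y ∈ x.2.divisorsAntidiagonal,
        (if A1 ≤ y.1 ∧ y.1 < A2 then (1:ℝ) else 0) * (if B1 ≤ y.2 ∧ y.2 < B2 then (1:ℝ) else 0) : ℝ) : ℂ) =
      ∑ q ∈ Icc 1 R, (γ q : ℂ) * pd q (Ico (A1:ℤ) A2) (Ico (B1:ℤ) B2) (m:ℤ) := by
  have e1 : ∀ q ∈ Icc 1 R, (γ q : ℂ) * pd q (Ico (A1:ℤ) A2) (Ico (B1:ℤ) B2) (m:ℤ) =
      ((γ q * ∑ a ∈ Ico A1 A2, ∑ b ∈ Ico B1 B2, (if q * (a * b) = m then (1:ℝ) else 0) : ℝ) : ℂ) := by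
    intro q _
    rw [pd_nat m q A1 A2 B1 B2, Complex.ofReal_mul]
  rw [Finset.sum_congr rfl e1, ← Complex.ofReal_sum]
  congr 1
  rw [Nat.sum_divisorsAntidiagonal (fun q k => γ q * ∑ y ∈ k.divisorsAntidiagonal,
        (if A1 ≤ y.1 ∧ y.1 < A2 then (1:ℝ) else 0) * (if B1 ≤ y.2 ∧ y.2 < B2 then (1:ℝ) else 0))]
  have e2 : ∀ q ∈ m.divisors, γ q * ∑ y ∈ (m / q).divisorsAntidiagonal,
        (if A1 ≤ y.1 ∧ y.1 < A2 then (1:ℝ) else 0) * (if B1 ≤ y.2 ∧ y.2 < B2 then (1:ℝ) else 0) =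
      γ q * ∑ a ∈ Ico A1 A2, ∑ b ∈ Ico B1 B2, (if q * (a * b) = m then (1:ℝ) else 0) := by
    intro q hq
    obtain ⟨⟨k, hk⟩, hm0⟩ := Nat.mem_divisors.1 hq
    have hq0 : 0 < q := Nat.pos_of_mem_divisors hq
    have hk0 : k ≠ 0 := by
      rintro rfl
      exact hm0 (by rw [hk, mul_zero])
    rw [hk, Nat.mul_div_cancel_left k hq0, box_eq k A1 A2 B1 B2 hk0]
    congr 1
    refine Finset.sum_congr rfl fun a _ => Finset.sum_congr rfl fun b _ => ?_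
    by_cases h : a * b = k
    · rw [if_pos h, if_pos (by rw [h])]
    · rw [if_neg h, if_neg (fun h2 => h (Nat.eq_of_mul_eq_mul_left hq0 h2))]
  rw [Finset.sum_congr rfl e2]
  classical
  have e3 : ∀ q, q ∉ m.divisors ∩ Icc 1 R → γ q * ∑ a ∈ Ico A1 A2, ∑ b ∈ Ico B1 B2, (if q * (a * b) = m then (1:ℝ) else 0) = 0 := by
    intro q hq
    by_cases h : γ q = 0
    · rw [h, zero_mul]
    · have h1 : q ∈ Icc 1 R := Finset.mem_Icc.2 (hγ q h)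
      have h2 : q ∉ m.divisors := fun h3 => hq (Finset.mem_inter.2 ⟨h3, h1⟩)
      have h3 : ¬ q ∣ m := fun h4 => h2 (Nat.mem_divisors.2 ⟨h4, by omega⟩)
      have h4 : ∑ a ∈ Ico A1 A2, ∑ b ∈ Ico B1 B2, (if q * (a * b) = m then (1:ℝ) else 0) = 0 := by
        refine Finset.sum_eq_zero fun a _ => Finset.sum_eq_zero fun b _ => if_neg ?_
        intro h5
        exact h3 ⟨a * b, h5.symm⟩
      rw [h4, mul_zero]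
  rw [← Finset.sum_subset (Finset.inter_subset_left : m.divisors ∩ Icc 1 R ⊆ m.divisors) (fun q _ hq => e3 q hq),
    ← Finset.sum_subset (Finset.inter_subset_right : m.divisors ∩ Icc 1 R ⊆ Icc 1 R) (fun q _ hq => e3 q hq)]

/-- **H3** from module D. -/
theorem h3_of (et0 : ℝ) (C n0 : ℕ) (h : DOut et0 C n0) (η : ℝ) (hη : η ≤ et0) (n : ℕ) (hn : n0 ≤ n) (hn1 : 1 ≤ n) (c D : ℝ)
    (hD : (1 + Real.log n) ^ 10 ≤ D) (hdiv : ∀ m : ℕ, 1 ≤ m → m ≤ 2 * n → (m.divisors.card : ℝ) ≤ D) (hDC : D ^ C ≤ n) (hcD : ((2 * n : ℕ) : ℝ) ^ (2 * c) ≤ D)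
    (W f g : ℤ → ℂ) (hW : ∀ x, ‖W x‖ ≤ 1) (hf : ∀ x, ‖f x‖ ≤ 1) (hg : ∀ x, ‖g x‖ ≤ 1)
    (hth : ∀ th : ℝ, ‖∑ z ∈ Icc (1:ℤ) n, g z * ee (th * z)‖ < (n:ℝ) / D ^ C) :
      Pool.Agent.Lib.H81A.H3 c η (2 * n) (tfS n W f g) ((n:ℝ) ^ 2 / D) := by
  intro A1 A2 B1 B2 hA1 hA2 hB1 hB2 hA hB γ hγ hγs
  set R : ℕ := ⌊((2 * n : ℕ) : ℝ) ^ (2 * c)⌋₊ with hR
  have hR1 : (R : ℝ) ≤ ((2 * n : ℕ) : ℝ) ^ (2 * c) := Nat.floor_le (Real.rpow_nonneg (Nat.cast_nonneg _) _)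
  have hmono : ((2 * n : ℕ) : ℝ) ^ (1 / 2 - 2 * et0) ≤ ((2 * n : ℕ) : ℝ) ^ (1 / 2 - 2 * η) := by
    refine Real.rpow_le_rpow_of_exponent_le ?_ (by linarith)
    have : 1 ≤ 2 * n := by omega
    exact_mod_cast this
  have e : tfS n W f g (fun m => ∑ x ∈ m.divisorsAntidiagonal, γ x.1 *
        ∑ y ∈ x.2.divisorsAntidiagonal, (if A1 ≤ y.1 ∧ y.1 < A2 then 1 else 0) * (if B1 ≤ y.2 ∧ y.2 < B2 then 1 else 0)) =
      ‖TF n (fun m => ∑ q ∈ Icc 1 R, (γ q : ℂ) * pd q (Ico (A1:ℤ) A2) (Ico (B1:ℤ) B2) m) W f g‖ := by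
    rw [tfS_apply]
    congr 1
    refine TF_congr n W f g fun m hm1 hm2 => ?_
    have h0 : ((m.toNat : ℕ) : ℤ) = m := Int.toNat_of_nonneg (by omega)
    have h1 := conv_pd m.toNat (by omega) R A1 A2 B1 B2 γ (fun q hq => ⟨(hγs q hq).1, Nat.le_floor (hγs q hq).2⟩)
    rw [h0] at h1
    exact h1
  rw [e]
  by_contra hcon
  obtain ⟨th, hth'⟩ := h n hn D hD hdiv hDC R (hR1.trans hcD) A1 A2 B1 B2 (hmono.trans hA1) (hmono.trans hB1) hA hB (fun q => (γ q : ℂ))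
    (fun q => by rw [Complex.norm_real]; exact hγ q) W f g hW hf hg (le_of_lt (not_le.1 hcon))
  exact absurd (hth th) (not_lt.2 hth')

end Pool.Agent.H37T
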