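import Pool.Agent.Lib.H37T.A3
import Pool.Agent.Lib.H81A.Final
/-!
H37T: A + B + C + D give the inverse theorem for the von Mangoldt function.
-/
namespace Pool.Agent.H37T
open Finset Pool.Agent.H44W

theorem H1_mono {c : ℝ} {N : ℕ} {p : Seminorm ℝ (ℕ → ℝ)} {X Y : ℝ} (h : Pool.Agent.Lib.H81A.H1 c N p X) (hXY : X ≤ Y) :
    Pool.Agent.Lib.H81A.H1 c N p Y := fun B1 B2 h1 h2 γ h3 h4 => (h B1 B2 h1 h2 γ h3 h4).trans hXY

theorem H2_mono {c η : ℝ} {N : ℕ} {p : Seminorm ℝ (ℕ → ℝ)} {X Y : ℝ} (h : Pool.Agent.Lib.H81A.H2 c η N p X) (hXY : X ≤ Y) :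
    Pool.Agent.Lib.H81A.H2 c η N p Y := fun K M h1 h2 h3 α β h4 h5 h6 h7 => (h K M h1 h2 h3 α β h4 h5 h6 h7).trans hXY

theorem H3_mono {c η : ℝ} {N : ℕ} {p : Seminorm ℝ (ℕ → ℝ)} {X Y : ℝ} (h : Pool.Agent.Lib.H81A.H3 c η N p X) (hXY : X ≤ Y) :
    Pool.Agent.Lib.H81A.H3 c η N p Y := fun A1 A2 B1 B2 h1 h2 h3 h4 h5 h6 γ h7 h8 => (h A1 A2 B1 B2 h1 h2 h3 h4 h5 h6 γ h7 h8).trans hXY

/-- The divisor bound. -/
theorem div_bound (b : ℝ) (hb : 0 < b) : ∃ n0 : ℕ, ∀ n : ℕ, n0 ≤ n → ∀ m : ℕ, 1 ≤ m → m ≤ 2 * n → (m.divisors.card : ℝ) ≤ (n:ℝ) ^ b := by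
  obtain ⟨C, hC, hdiv⟩ := Pool.Agent.Lib.H21AP.divisor_bound (ε := b / 2) (by positivity)
  have t : ∀ᶠ n : ℕ in Filter.atTop, C * 2 ^ (b / 2) ≤ (n : ℝ) ^ (b / 2) :=
    ((tendsto_rpow_atTop (by positivity : 0 < b / 2)).comp tendsto_natCast_atTop_atTop).eventually_ge_atTop _
  obtain ⟨n0, hn0⟩ := Filter.eventually_atTop.1 t
  refine ⟨max n0 1, fun n hn m hm1 hm2 => (hdiv m hm1).trans ?_⟩
  have h1 := hn0 n (by omega)
  have hn1 : (0:ℝ) < n := by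
    have : 0 < n := by omega
    exact_mod_cast this
  have h2 : (m:ℝ) ^ (b / 2) ≤ 2 ^ (b / 2) * (n:ℝ) ^ (b / 2) := by
    rw [← Real.mul_rpow (by norm_num) hn1.le]
    refine Real.rpow_le_rpow (Nat.cast_nonneg m) ?_ (by positivity)
    exact_mod_cast hm2
  calc C * (m:ℝ) ^ (b / 2) ≤ C * (2 ^ (b / 2) * (n:ℝ) ^ (b / 2)) := mul_le_mul_of_nonneg_left h2 hC.le
    _ = (C * 2 ^ (b / 2)) * (n:ℝ) ^ (b / 2) := by ring
    _ ≤ (n:ℝ) ^ (b / 2) * (n:ℝ) ^ (b / 2) := mul_le_mul_of_nonneg_right h1 (Real.rpow_nonneg hn1.le _)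
    _ = (n:ℝ) ^ b := by
      rw [← Real.rpow_add hn1]
      congr 1
      ring

/-- The inverse theorem for the von Mangoldt function (the same proposition as in `H9S`). -/
def INV : Prop :=
  ∀ c1 : ℝ, 0 < c1 → ∃ c2 : ℝ, 0 < c2 ∧ ∃ n0 : ℕ, ∀ n : ℕ, n0 ≤ n → ∀ W f g : ℤ → ℂ,
    (∀ x, ‖W x‖ ≤ 1) → (∀ x, ‖f x‖ ≤ 1) → (∀ x, ‖g x‖ ≤ 1) →
    (∀ th : ℝ, ‖∑ z ∈ Icc (1:ℤ) n, g z * ee (th * z)‖ ≤ (n:ℝ) ^ (1 - c1)) →
    ‖TF n (fun m => ((ArithmeticFunction.vonMangoldt m.toNat : ℝ) : ℂ)) W f g‖ ≤ (n:ℝ) ^ (2 - c2)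

theorem inv_of (hB : ∃ C : ℕ, ClassTwo C)
    (hD : ∃ et0 : ℝ, 0 < et0 ∧ ∃ C n0 : ℕ, DOut et0 C n0) : INV := by
  intro c0 hc0
  obtain ⟨et0, het0, CD, nD, hDO⟩ := hD
  set c1 : ℝ := min c0 1 with hc1d
  have hc1 : 0 < c1 := lt_min hc0 one_pos
  have hc1' : c1 ≤ 1 := min_le_right _ _
  have hc1'' : c1 ≤ c0 := min_le_left _ _
  set η : ℝ := min et0 (1 / 24) with hηd
  have hη : 0 < η := lt_min het0 (by norm_num)
  have hη1 : η ≤ et0 := min_le_left _ _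
  have hη2 : η ≤ 1 / 24 := min_le_right _ _
  obtain ⟨CB, hCB⟩ := hB
  obtain ⟨nB, hnB⟩ := h2_of η hη CB hCB
  set d : ℝ := c1 / (2 * ((CD : ℝ) + 1)) with hdd
  have hCD0 : (0:ℝ) ≤ CD := Nat.cast_nonneg _
  have hCB0 : (0:ℝ) ≤ CB := Nat.cast_nonneg _
  have hd : 0 < d := by positivity
  have hd1 : d * (2 * ((CD : ℝ) + 1)) = c1 := div_mul_cancel₀ _ (by positivity)
  have hdC : d * CD < c1 := by nlinarith
  have hd2 : d ≤ c1 / 2 := by nlinarith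
  set c : ℝ := min (d / 12) η with hcd
  have hc : 0 < c := lt_min (by positivity) hη
  have hc12 : c ≤ d / 12 := min_le_left _ _
  have hcη : c ≤ η := min_le_right _ _
  have hc24 : c ≤ 1 / 24 := by linarith
  set b : ℝ := c / (2 * ((CB : ℝ) + 1)) with hbd
  have hb : 0 < b := by positivity
  have hb1 : b * (2 * ((CB : ℝ) + 1)) = c := div_mul_cancel₀ _ (by positivity)
  have hbC : b * CB < c := by nlinarith
  have hb2 : b ≤ c / 2 := by nlinarith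
  obtain ⟨nA, hnA⟩ := Pool.Agent.Lib.H81A.hb_seminorm c η (b / 4) hc hη (by linarith) (by positivity)
  -- large n
  have t1 : ∀ᶠ n : ℕ in Filter.atTop, (2 : ℝ) ≤ (n : ℝ) ^ b :=
    ((tendsto_rpow_atTop hb).comp tendsto_natCast_atTop_atTop).eventually_ge_atTop 2
  have t2 : ∀ᶠ n : ℕ in Filter.atTop, (4 : ℝ) ≤ (n : ℝ) ^ (b / 4) :=
    ((tendsto_rpow_atTop (by positivity : 0 < b / 4)).comp tendsto_natCast_atTop_atTop).eventually_ge_atTop 4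
  have t3 : ∀ᶠ n : ℕ in Filter.atTop, (1 + Real.log n) ^ 10 ≤ (n : ℝ) ^ d := by
    have h1 : ∀ᶠ x : ℝ in Filter.atTop, 1 + Real.log x ≤ x ^ (d / 10) := by
      have h2 := (isLittleO_log_rpow_atTop (by positivity : 0 < d / 10)).def (by norm_num : (0:ℝ) < 1 / 2)
      have h3 : ∀ᶠ x : ℝ in Filter.atTop, (2 : ℝ) ≤ x ^ (d / 10) := (tendsto_rpow_atTop (by positivity : 0 < d / 10)).eventually_ge_atTop 2
      filter_upwards [h2, h3, Filter.eventually_ge_atTop (1:ℝ)] with x h4 h5 h6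
      rw [Real.norm_of_nonneg (Real.log_nonneg h6), Real.norm_of_nonneg (Real.rpow_nonneg (by linarith) _)] at h4
      linarith
    filter_upwards [tendsto_natCast_atTop_atTop.eventually h1, Filter.eventually_ge_atTop 1] with n h4 h5
    have h6 : (0:ℝ) ≤ n := Nat.cast_nonneg n
    have h7 : (n : ℝ) ^ d = ((n : ℝ) ^ (d / 10)) ^ 10 := by
      rw [← Real.rpow_natCast, ← Real.rpow_mul h6]
      congr 1
      push_cast
      ring
    rw [h7]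
    have h8 : 0 ≤ Real.log n := Real.log_natCast_nonneg n
    exact pow_le_pow_left₀ (by linarith) h4 10
  have t4 : ∀ᶠ n : ℕ in Filter.atTop, 5 * (1 + Real.log n) ≤ (n : ℝ) ^ (c1 / 3) := by
    have h1 : ∀ᶠ x : ℝ in Filter.atTop, 5 * (1 + Real.log x) ≤ x ^ (c1 / 3) := by
      have h2 := (isLittleO_log_rpow_atTop (by positivity : 0 < c1 / 3)).def (by norm_num : (0:ℝ) < 1 / 10)
      have h3 : ∀ᶠ x : ℝ in Filter.atTop, (10 : ℝ) ≤ x ^ (c1 / 3) := (tendsto_rpow_atTop (by positivity : 0 < c1 / 3)).eventually_ge_atTop 10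
      filter_upwards [h2, h3, Filter.eventually_ge_atTop (1:ℝ)] with x h4 h5 h6
      rw [Real.norm_of_nonneg (Real.log_nonneg h6), Real.norm_of_nonneg (Real.rpow_nonneg (by linarith) _)] at h4
      linarith
    exact tendsto_natCast_atTop_atTop.eventually h1
  obtain ⟨nT, hnT⟩ := Filter.eventually_atTop.1 (t1.and (t2.and (t3.and t4)))
  obtain ⟨nV, hnV⟩ := div_bound b hb
  refine ⟨b / 4, by positivity, max (max nA nB) (max (max nD nT) (max nV 2)), fun n hn W f g hW hf hg hth => ?_⟩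
  have hnA' : nA ≤ 2 * n := by omega
  have hnB' : nB ≤ n := by omega
  have hnD' : nD ≤ n := by omega
  have hn2 : 2 ≤ n := by omega
  obtain ⟨u1, u2, u3, u4⟩ := hnT n (by omega)
  have hdvb := hnV n (by omega)
  have hnR : (2:ℝ) ≤ n := by exact_mod_cast hn2
  have hn0 : (0:ℝ) < n := by linarith
  have hn1 : (1:ℝ) ≤ n := by linarith
  have hlog : 0 ≤ Real.log n := Real.log_natCast_nonneg n
  have hth1 : ∀ th : ℝ, ‖∑ z ∈ Icc (1:ℤ) n, g z * ee (th * z)‖ ≤ (n:ℝ) ^ (1 - c1) := fun th =>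
    (hth th).trans (Real.rpow_le_rpow_of_exponent_le hn1 (by linarith))
  have hlt : ∀ e : ℝ, ∀ C : ℕ, e * C < c1 → ∀ th : ℝ, ‖∑ z ∈ Icc (1:ℤ) n, g z * ee (th * z)‖ < (n:ℝ) / ((n:ℝ) ^ e) ^ C := by
    intro e C he th
    refine lt_of_le_of_lt (hth1 th) ?_
    have h1 : (n:ℝ) / ((n:ℝ) ^ e) ^ C = (n:ℝ) ^ (1 - e * C) := by
      rw [← Real.rpow_natCast, ← Real.rpow_mul hn0.le, Real.rpow_sub hn0, Real.rpow_one]
    rw [h1]
    exact Real.rpow_lt_rpow_of_exponent_lt (by linarith) (by linarith)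
  have h2n : ∀ e : ℝ, 0 ≤ e → ((2 * n : ℕ) : ℝ) ^ e ≤ (n:ℝ) ^ (2 * e) := by
    intro e he
    rw [Real.rpow_mul hn0.le]
    refine Real.rpow_le_rpow (Nat.cast_nonneg _) ?_ he
    push_cast
    rw [Real.rpow_two]
    nlinarith
  have hn2n : ∀ e : ℝ, 0 ≤ e → (n:ℝ) ^ e ≤ ((2 * n : ℕ) : ℝ) ^ e := by
    intro e he
    refine Real.rpow_le_rpow hn0.le ?_ he
    push_cast
    linarith
  have hdiv : ∀ e : ℝ, (n:ℝ) ^ 2 / (n:ℝ) ^ e = (n:ℝ) ^ (2 - e) := by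
    intro e
    rw [Real.rpow_sub hn0, Real.rpow_two]
  set X : ℝ := 4 * (n:ℝ) ^ (2 - b) with hX
  have hbb : b ≤ d := by linarith
  have k2 : Pool.Agent.Lib.H81A.H2 c η (2 * n) (tfS n W f g) X := by
    have h0 : ((n:ℝ) ^ b) ^ CB ≤ (n:ℝ) ^ c := by
      rw [← Real.rpow_natCast, ← Real.rpow_mul hn0.le]
      exact Real.rpow_le_rpow_of_exponent_le hn1 hbC.le
    have h1 := hnB n hnB' c ((n:ℝ) ^ b) u1 hdvb (h0.trans (hn2n c hc.le))
      (h0.trans (Real.rpow_le_rpow_of_exponent_le hn1 hcη)) W f g hW hf hg (hlt b CB (by linarith))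
    rw [hdiv] at h1
    exact h1
  have k3 : Pool.Agent.Lib.H81A.H3 c η (2 * n) (tfS n W f g) X := by
    have h1 := h3_of et0 CD nD hDO η hη1 n hnD' (by omega) c ((n:ℝ) ^ d) u3
      (fun m hm1 hm2 => (hdvb m hm1 hm2).trans (Real.rpow_le_rpow_of_exponent_le hn1 hbb)) (by
      rw [← Real.rpow_natCast, ← Real.rpow_mul hn0.le]
      calc (n:ℝ) ^ (d * CD) ≤ (n:ℝ) ^ (1:ℝ) := Real.rpow_le_rpow_of_exponent_le hn1 (by linarith)
        _ = n := Real.rpow_one _) (by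
      refine (h2n (2 * c) (by positivity)).trans (Real.rpow_le_rpow_of_exponent_le hn1 ?_)
      linarith) W f g hW hf hg (hlt d CD hdC)
    rw [hdiv] at h1
    refine H3_mono h1 ?_
    have h2 : (n:ℝ) ^ (2 - d) ≤ (n:ℝ) ^ (2 - b) := Real.rpow_le_rpow_of_exponent_le hn1 (by linarith)
    have h3 : 0 ≤ (n:ℝ) ^ (2 - b) := Real.rpow_nonneg hn0.le _
    rw [hX]
    linarith
  have k1 : Pool.Agent.Lib.H81A.H1 c (2 * n) (tfS n W f g) X := by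
    refine H1_mono (h1_of n (by omega) c W f g hW hf ((n:ℝ) ^ (1 - c1)) hth1) ?_
    have h1 : ((2 * n : ℕ) : ℝ) ^ (2 * c) ≤ (n:ℝ) ^ (d / 3) := by
      refine (h2n (2 * c) (by positivity)).trans (Real.rpow_le_rpow_of_exponent_le hn1 ?_)
      linarith
    have h2 : (0:ℝ) ≤ (n:ℝ) ^ (1 - c1) := Real.rpow_nonneg hn0.le _
    have h3 : (0:ℝ) ≤ (n:ℝ) ^ (d / 3) := Real.rpow_nonneg hn0.le _
    calc 20 * ((2 * n : ℕ) : ℝ) ^ (2 * c) * (1 + Real.log n) * n * (n:ℝ) ^ (1 - c1)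
        ≤ 20 * (n:ℝ) ^ (d / 3) * (1 + Real.log n) * n * (n:ℝ) ^ (1 - c1) := by gcongr
      _ = 4 * ((n:ℝ) ^ (d / 3) * (5 * (1 + Real.log n)) * (n ^ (1:ℝ) * (n:ℝ) ^ (1 - c1))) := by rw [Real.rpow_one]; ring
      _ ≤ 4 * ((n:ℝ) ^ (d / 3) * (n:ℝ) ^ (c1 / 3) * (n ^ (1:ℝ) * (n:ℝ) ^ (1 - c1))) := by gcongr
      _ = 4 * (n:ℝ) ^ (d / 3 + c1 / 3 + (1 + (1 - c1))) := by
          rw [← Real.rpow_add hn0, ← Real.rpow_add hn0, ← Real.rpow_add hn0]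
      _ ≤ X := by
          rw [hX]
          refine mul_le_mul_of_nonneg_left (Real.rpow_le_rpow_of_exponent_le hn1 ?_) (by norm_num)
          linarith
  have h := hnA (2 * n) hnA' (tfS n W f g) (tfS_loc n W f g) X k2 k1 k3
  have e : tfS n W f g (fun m => ArithmeticFunction.vonMangoldt m) =
      ‖TF n (fun m => ((ArithmeticFunction.vonMangoldt m.toNat : ℝ) : ℂ)) W f g‖ := rfl
  rw [e] at h
  refine h.trans ?_
  have h1 := h2n (b / 4) (by positivity)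
  have h2 : 0 ≤ (n:ℝ) ^ (2 - b) := Real.rpow_nonneg hn0.le _
  have h3 : 0 ≤ (n:ℝ) ^ (2 * (b / 4)) := Real.rpow_nonneg hn0.le _
  calc ((2 * n : ℕ) : ℝ) ^ (b / 4) * X ≤ (n:ℝ) ^ (2 * (b / 4)) * ((n:ℝ) ^ (b / 4) * (n:ℝ) ^ (2 - b)) := by
        rw [hX]
        gcongr
    _ = (n:ℝ) ^ (2 - b / 4) := by
        rw [← Real.rpow_add hn0, ← Real.rpow_add hn0]
        congr 1
        ring

end Pool.Agent.H37T
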