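import Pool.Agent.Lib.H37T.A4
import Pool.Agent.Lib.H44W.M8
import Pool.Agent.Lib.H21T.Main
/-!
H37T: the inverse theorem for the von Mangoldt function from module B.
-/
namespace Pool.Agent.H37T
open Finset Pool.Agent.H44W

theorem inv_of_classTwo (h2 : ∃ C : ℕ, ClassTwo C) : INV := by
  obtain ⟨C, hC⟩ := h2
  exact inv_of ⟨C, hC⟩ (d_out C hC Pool.Agent.Lib.H21T.D34)

end Pool.Agent.H37T
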