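import Pool.Agent.Lib.H37T.A5
import Pool.Agent.Lib.H3B.Final
/-!
H37T: the inverse theorem for the von Mangoldt function (all modules).
-/
namespace Pool.Agent.H37T

/-- **The inverse theorem**: if `g` has no Fourier coefficient larger than `n ^ (1 - c1)`, then every form
`∑ f(x) g(y) Λ(x+y) W(x-y)` with bounded `f`, `W` is at most `n ^ (2 - c2)`. -/
theorem inv : INV := inv_of_classTwo Pool.Agent.H3B.class_two

end Pool.Agent.H37T
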