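import Pool.Agent.Lib.H59T.UM
import Pool.Agent.Lib.H59P.S1B
import Pool.Agent.Lib.H21AP.DivisorBound
/-!
H37T: the projection `Lk Q (X / Q ^ 2)` is at most `n ^ ε` (field `bd` of `H96G.GIn`).
-/
namespace Pool.Agent.H37T
open Finset Pool.Agent.Lib.H68T Pool.Agent.Lib.H18Q Pool.Agent.Lib.H59P

theorem dQ_le (Q : ℕ) (m : ℤ) (hm : 1 ≤ m) : dQ Q m ≤ (m.toNat.divisors.card : ℝ) := by
  unfold dQ
  have h : ((Icc 1 Q).filter (fun d : ℕ => (d : ℤ) ∣ m)) ⊆ m.toNat.divisors := by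
    intro d hd
    rw [Finset.mem_filter] at hd
    refine Nat.mem_divisors.2 ⟨?_, by omega⟩
    have h1 : ((m.toNat : ℕ) : ℤ) = m := Int.toNat_of_nonneg (by omega)
    have h2 := hd.2
    rw [← h1] at h2
    exact_mod_cast h2
  exact_mod_cast Finset.card_le_card h

/-- The bound for the projection. -/
theorem Lk_le : ∃ K : ℝ, 1 ≤ K ∧ ∀ ε : ℝ, 0 < ε → ∃ n0 : ℕ, ∀ n Q X : ℕ, n0 ≤ n → X ≤ n → RegP K Q X →
    ∀ m : ℤ, (X : ℤ) ≤ m → m ≤ 4 * X → |Lk Q (X / Q ^ 2) m| ≤ (n : ℝ) ^ ε := by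
  obtain ⟨K1, C1, hK1, hC1, h1⟩ := Pool.Agent.Lib.H59T.UM_mass
  obtain ⟨K2, hK2, h2⟩ := Lk_SG
  refine ⟨max K1 K2, hK1.trans (le_max_left _ _), fun ε hε => ?_⟩
  obtain ⟨C, hC, hdiv⟩ := Pool.Agent.Lib.H21AP.divisor_bound (ε := ε / 3) (by positivity)
  have t1 : ∀ᶠ n : ℕ in Filter.atTop, 100 * C1 * (C * 4 ^ (ε / 3)) ≤ (n : ℝ) ^ (ε / 3) :=
    ((tendsto_rpow_atTop (by positivity : 0 < ε / 3)).comp tendsto_natCast_atTop_atTop).eventually_ge_atTop _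
  have t2 : ∀ᶠ n : ℕ in Filter.atTop, (1 + Real.log n) ^ 3 ≤ (n : ℝ) ^ (ε / 3) := by
    have h3 : ∀ᶠ x : ℝ in Filter.atTop, 1 + Real.log x ≤ x ^ (ε / 9) := by
      have h4 := (isLittleO_log_rpow_atTop (by positivity : 0 < ε / 9)).def (by norm_num : (0:ℝ) < 1 / 2)
      have h5 : ∀ᶠ x : ℝ in Filter.atTop, (2 : ℝ) ≤ x ^ (ε / 9) := (tendsto_rpow_atTop (by positivity : 0 < ε / 9)).eventually_ge_atTop 2
      filter_upwards [h4, h5, Filter.eventually_ge_atTop (1:ℝ)] with x h6 h7 h8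
      rw [Real.norm_of_nonneg (Real.log_nonneg h8), Real.norm_of_nonneg (Real.rpow_nonneg (by linarith) _)] at h6
      linarith
    filter_upwards [tendsto_natCast_atTop_atTop.eventually h3] with n h4
    have h6 : (0:ℝ) ≤ n := Nat.cast_nonneg n
    have h7 : (n : ℝ) ^ (ε / 3) = ((n : ℝ) ^ (ε / 9)) ^ 3 := by
      rw [← Real.rpow_natCast, ← Real.rpow_mul h6]
      congr 1
      push_cast
      ring
    rw [h7]
    have h8 : 0 ≤ Real.log n := Real.log_natCast_nonneg n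
    exact pow_le_pow_left₀ (by linarith) h4 3
  obtain ⟨n0, hn0⟩ := Filter.eventually_atTop.1 (t1.and t2)
  refine ⟨n0, fun n Q X hn hXn hreg m hm hm4 => ?_⟩
  obtain ⟨u1, u2⟩ := hn0 n hn
  have hK0 : 0 ≤ max K1 K2 := by linarith [le_max_left K1 K2]
  have r1 := hreg.mono hK0 (le_max_left _ _)
  have r2 := hreg.mono hK0 (le_max_right _ _)
  have hX0 : 0 < X := r1.X_pos (by linarith)
  have hn1 : (0:ℝ) < n := by
    have : 0 < n := by omega
    exact_mod_cast this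
  have hQ1 : 1 ≤ Q := by
    by_contra hcon
    have hQ0 : Q = 0 := by omega
    obtain ⟨g1, g2, g3⟩ := r1
    rw [hQ0, Nat.cast_zero, Real.log_zero] at g2
    have : (0:ℝ) < K1 * Real.log (Real.log X) := by
      have : 0 < Real.log (Real.log X) := by linarith
      positivity
    linarith
  have hlogQ : 0 ≤ Real.log Q := Real.log_natCast_nonneg Q
  have hlogX : 0 ≤ Real.log X := Real.log_natCast_nonneg X
  have hQn : Real.log Q ≤ Real.log n := by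
    obtain ⟨g1, g2, g3⟩ := r1
    have h3 : Real.log Q ≤ K1 * Real.log Q := le_mul_of_one_le_left hlogQ hK1
    have h4 : Real.log X ≤ Real.log n := Real.log_le_log (by exact_mod_cast hX0) (by exact_mod_cast hXn)
    linarith
  obtain ⟨mb, hmb0, hmbs, hmb⟩ := h1 Q X r1
  have e1 : |Lk Q (X / Q ^ 2) m| = ‖SG Q (fun p => Bc Q X p m) m‖ := by
    rw [← h2 Q X r2 m hm hm4, Complex.norm_real, Real.norm_eq_abs]
  have e2 := S1b Q hQ1 (fun p => Bc Q X p m) mb (hmb m hm hm4) m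
  have hm1 : 1 ≤ m := by omega
  have e3 : dQ Q m ≤ C * 4 ^ (ε / 3) * (n:ℝ) ^ (ε / 3) := by
    refine (dQ_le Q m hm1).trans ((hdiv m.toNat (by omega)).trans ?_)
    have h3 : ((m.toNat : ℕ) : ℝ) ≤ 4 * n := by
      have : m.toNat ≤ 4 * n := by omega
      exact_mod_cast this
    calc C * ((m.toNat : ℕ) : ℝ) ^ (ε / 3) ≤ C * (4 * n) ^ (ε / 3) :=
          mul_le_mul_of_nonneg_left (Real.rpow_le_rpow (Nat.cast_nonneg _) h3 (by positivity)) hC.le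
      _ = C * 4 ^ (ε / 3) * (n:ℝ) ^ (ε / 3) := by
          rw [Real.mul_rpow (by norm_num) hn1.le]
          ring
  have hd0 : 0 ≤ dQ Q m := by unfold dQ; positivity
  have hs0 : 0 ≤ ∑ p ∈ PC Q, mb p := Finset.sum_nonneg hmb0
  have hlogn : 0 ≤ Real.log n := Real.log_natCast_nonneg n
  have hne : 0 ≤ (n:ℝ) ^ (ε / 3) := Real.rpow_nonneg hn1.le _
  rw [e1]
  refine e2.trans ?_
  calc 100 * (1 + Real.log Q) ^ 3 * dQ Q m * ∑ p ∈ PC Q, mb p
      ≤ 100 * (1 + Real.log n) ^ 3 * (C * 4 ^ (ε / 3) * (n:ℝ) ^ (ε / 3)) * C1 := by gcongr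
    _ = (1 + Real.log n) ^ 3 * ((n:ℝ) ^ (ε / 3) * (100 * C1 * (C * 4 ^ (ε / 3)))) := by ring
    _ ≤ (n:ℝ) ^ (ε / 3) * ((n:ℝ) ^ (ε / 3) * (n:ℝ) ^ (ε / 3)) := by gcongr
    _ = (n:ℝ) ^ ε := by
        rw [← Real.rpow_add hn1, ← Real.rpow_add hn1]
        congr 1
        ring

end Pool.Agent.H37T
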