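import Pool.Agent.Lib.H37T.A6
import Pool.Agent.Lib.H9S.O3
import Pool.Agent.Lib.H24Q.M9
import Pool.Agent.Lib.H96G.Defs
/-!
H37T: the input of module G (`H96G.GIn`) at all large sizes, from the main terms (module F), the operator bound (module STAR)
and the inverse theorem.
-/
namespace Pool.Agent.H37T
open Finset
open Pool.Agent.Lib.H68T (Lk lp)
open Pool.Agent.Lib.H18Q (RegP)
open Pool.Agent.Lib.H96G (GIn Sc ST kp km)
open Pool.Agent.Lib.H24Q (KL MT)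

theorem invS : Pool.Agent.H9S.INV := inv

theorem gin : ∃ c0 : ℝ, 0 < c0 ∧ ∃ n1 : ℕ, ∀ n : ℕ, n1 ≤ n →
    ∃ (M : ℕ) (L : ℕ → ℤ → ℝ) (c B b : ℝ), c0 ≤ b ∧ GIn n M L c B b := by
  obtain ⟨K1, hK1, hOP⟩ := Pool.Agent.H9S.OP_main invS
  obtain ⟨K2, hK2, hbd⟩ := Pool.Agent.H9S.BDL_bd
  obtain ⟨K0, hK0⟩ : ∃ K0 : ℝ, K0 = max (max K1 K2) 1600 := ⟨_, rfl⟩
  have hK01 : K1 ≤ K0 := by rw [hK0]; exact (le_max_left _ _).trans (le_max_left _ _)
  have hK02 : K2 ≤ K0 := by rw [hK0]; exact (le_max_right _ _).trans (le_max_left _ _)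
  have hK03 : 1600 ≤ K0 := by rw [hK0]; exact le_max_right _ _
  have hK0p : 0 ≤ K0 := by linarith
  obtain ⟨Cr, hCr, hF⟩ := Pool.Agent.Lib.H24Q.F_all K0 (by linarith)
  obtain ⟨cop, hcop, nop, hop⟩ := hOP K0 hK01 Cr hCr
  obtain ⟨cF0, hcF0, nF, hF2⟩ := hF (1 / 10000) (min cop 1) (by norm_num) (lt_min hcop one_pos)
  have hc0 : 0 < cF0 / (10000 * Cr) := by positivity
  obtain ⟨nb, hnb⟩ := hbd (cF0 / (10000 * Cr)) hc0
  refine ⟨cF0 / (10000 * Cr), hc0, max (max nop nF) (max nb 2), fun n hn => ?_⟩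
  have hn1 : nop ≤ n := by omega
  have hn2 : nF ≤ n := by omega
  have hn3 : nb ≤ n := by omega
  have hn4 : 2 ≤ n := by omega
  have hnR : (2:ℝ) ≤ n := by exact_mod_cast hn4
  have hn0 : (0:ℝ) < n := by linarith
  have hn1' : (1:ℝ) ≤ n := by linarith
  have hlogn : 0 < Real.log n := Real.log_pos (by linarith)
  obtain ⟨Q, hQ1, hQ2, hreg, -, cF, hcF1, hcF2, hMT⟩ := hF2 n hn2
  have hcFp : 0 < cF := lt_of_lt_of_le hcF0 hcF1
  have hlogQ : 0 < Real.log Q := by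
    by_contra hcon
    have : Cr * Real.log Q ≤ 0 := mul_nonpos_of_nonneg_of_nonpos (by linarith) (not_lt.1 hcon)
    linarith
  have hQpos : 1 ≤ Q := by
    by_contra hcon
    have hQ0 : Q = 0 := by omega
    rw [hQ0, Nat.cast_zero, Real.log_zero] at hlogQ
    exact lt_irrefl _ hlogQ
  have hQR : (1:ℝ) ≤ Q := by exact_mod_cast hQpos
  have hQ0 : (0:ℝ) < Q := by linarith
  obtain ⟨lam, hlam⟩ : ∃ lam : ℝ, lam = Real.log Q / Real.log n := ⟨_, rfl⟩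
  have hlamp : 0 < lam := by rw [hlam]; positivity
  have hlam1 : lam ≤ 1 := by
    rw [hlam, div_le_one hlogn]
    nlinarith
  have hlamC : 1 / Cr ≤ lam := by
    rw [hlam, div_le_div_iff₀ (by linarith) hlogn]
    linarith
  have hnQ : (n:ℝ) ^ lam = Q := by
    rw [Real.rpow_def_of_pos hn0, hlam, mul_div_cancel₀ _ hlogn.ne', Real.exp_log hQ0]
  have hQn : ∀ x : ℝ, (Q:ℝ) ^ (-x) = (n:ℝ) ^ (-(x * lam)) := by
    intro x
    rw [← hnQ, ← Real.rpow_mul hn0.le]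
    congr 1
    ring
  obtain ⟨c, hc⟩ : ∃ c : ℝ, c = cF * lam := ⟨_, rfl⟩
  have hcp : 0 < c := by rw [hc]; positivity
  have hccF : c ≤ cF := by rw [hc]; exact mul_le_of_le_one_right hcFp.le hlam1
  have hc1 : c ≤ 1 := hccF.trans (hcF2.trans (min_le_right _ _))
  have hcop' : c ≤ cop := hccF.trans (hcF2.trans (min_le_left _ _))
  have hcC : cF0 / Cr ≤ c := by
    rw [hc]
    calc cF0 / Cr = cF0 * (1 / Cr) := by ring
      _ ≤ cF * lam := mul_le_mul hcF1 hlamC (by positivity) hcFp.le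
  have hb0 : cF0 / (10000 * Cr) ≤ c / 10000 := by
    calc cF0 / (10000 * Cr) = cF0 / Cr / 10000 := by rw [div_div, mul_comm]
      _ ≤ c / 10000 := by linarith
  have hQc : (Q:ℝ) ^ (-cF) = (n:ℝ) ^ (-c) := by rw [hQn, hc]
  have hQb : (Q:ℝ) ^ (-(1 / 10000 * cF)) = (n:ℝ) ^ (-(c / 10000)) := by
    rw [hQn, hc]
    congr 1
    ring
  have hQX : Q ≤ n := by
    have h1 : Real.log Q ≤ Real.log n := by
      have : lam * Real.log n = Real.log Q := by rw [hlam, div_mul_cancel₀ _ hlogn.ne']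
      nlinarith
    have h2 : (Q:ℝ) ≤ n := (Real.log_le_log_iff hQ0 hn0).1 h1
    exact_mod_cast h2
  -- scales
  have hsc : ∀ X Z : ℕ, Sc n (Q ^ 800) (c / 100) X Z → n ≤ Z ^ 2 ∧ n ≤ X ^ 2 ∧ X ≤ n ^ 2 ∧ 1 ≤ Z ∧ 1 ≤ X := by
    intro X Z h
    have h1 : (n:ℝ) ^ (1 / 2 : ℝ) ≤ Z :=
      (Real.rpow_le_rpow_of_exponent_le hn1' (by linarith)).trans h.lo
    have h2 : (n:ℝ) ≤ (Z:ℝ) ^ 2 := by
      calc (n:ℝ) = ((n:ℝ) ^ (1 / 2 : ℝ)) ^ 2 := by
            rw [← Real.rpow_natCast, ← Real.rpow_mul hn0.le]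
            norm_num
        _ ≤ (Z:ℝ) ^ 2 := pow_le_pow_left₀ (Real.rpow_nonneg hn0.le _) h1 2
    have h3 : n ≤ Z ^ 2 := by exact_mod_cast h2
    have h4 : 1 ≤ Z := by
      rcases Nat.eq_zero_or_pos Z with h5 | h5
      · rw [h5] at h3
        omega
      · exact h5
    have h5 := h.le
    have h6 := h.hi
    refine ⟨h3, ?_, ?_, h4, by omega⟩
    · have : Z ^ 2 ≤ X ^ 2 := Nat.pow_le_pow_left (by omega) 2
      omega
    · have : X ≤ X ^ 2 := Nat.le_self_pow (by norm_num) X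
      have h7 : n ≤ n ^ 2 := Nat.le_self_pow (by norm_num) n
      omega
  have hregX : ∀ X Z : ℕ, Sc n (Q ^ 800) (c / 100) X Z → RegP K0 Q X := by
    intro X Z h
    obtain ⟨h1, h2, h3, h4, h5⟩ := hsc X Z h
    exact (hreg X h2 h3).1
  have h40 : Q ^ 40 ∣ Q ^ 800 := pow_dvd_pow Q (by norm_num)
  refine ⟨Q ^ 800, fun X => Lk Q (X / Q ^ 2), c, c / 100, c / 10000, hb0, ?_⟩
  refine ⟨by positivity, by linarith, by linarith, hc1, Nat.one_le_pow _ _ hQpos, ?_, ?_, ?_, ?_, ?_⟩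
  · -- Mn
    push_cast
    have h1 : (Q:ℝ) ^ 800 = (n:ℝ) ^ (lam * 800) := by
      rw [Real.rpow_mul hn0.le, hnQ]
      norm_cast
    rw [h1]
    refine Real.rpow_le_rpow_of_exponent_le hn1' ?_
    have h2 : lam * 1600 ≤ 1 := by
      rw [hlam, div_mul_eq_mul_div, div_le_one hlogn]
      nlinarith
    linarith
  · -- bd
    intro X Z h m hm1 hm2
    obtain ⟨h1, h2, h3, h4, h5⟩ := hsc X Z h
    have h6 := hnb n hn3 Q X ((hregX X Z h).mono hK0p hK02) hQpos hQX h5 h.hi m hm1 hm2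
    exact h6.trans (Real.rpow_le_rpow_of_exponent_le hn1' hb0)
  · -- op
    intro X Z h f g hf hg
    obtain ⟨h1, h2, h3, h4, h5⟩ := hsc X Z h
    have h6 := hop n Q hn1 hQ1 hQ2 X Z (hregX X Z h) h4 h.le h.hi f g hf hg
    exact h6.trans (Real.rpow_le_rpow_of_exponent_le hn1' (by linarith))
  · -- m4
    intro X X' Z h h'
    obtain ⟨h1, h2, h3, h4, h5⟩ := hsc X Z h
    obtain ⟨Bad, hB1, hB2, hB3⟩ := hMT.m4 Z X X' (h40.trans h.dZ) (h40.trans h.dX) (h40.trans h'.dX) h1 h.le h'.le h.hi h'.hi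
    refine le_trans (Nat.cast_le.2 (Finset.card_le_card (t := Bad) ?_)) (hB2.trans ?_)
    · intro p hp
      simp only [Finset.mem_filter, Finset.mem_product] at hp
      obtain ⟨⟨hp1, hp2⟩, hp3, hp4⟩ := hp
      by_contra hcon
      have h7 := hB3 p.1 hp1 p.2 hp2 hcon hp3.1 hp3.2
      rw [hQb] at h7
      exact absurd hp4 (not_lt.2 h7)
    rw [hQc]
    have hX : (X:ℝ) ≤ n := by exact_mod_cast h.hi
    have hX' : (X':ℝ) ≤ n := by exact_mod_cast h'.hi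
    have h8 : 0 ≤ (n:ℝ) ^ (-c) := Real.rpow_nonneg hn0.le _
    calc (X:ℝ) * X' * (n:ℝ) ^ (-c) ≤ (n:ℝ) * n * (n:ℝ) ^ (-c) := by gcongr
      _ = (n:ℝ) ^ (2 - c) := by
          rw [show (2:ℝ) - c = 2 + (-c) by ring, Real.rpow_add hn0, Real.rpow_two]
          ring
  · -- m3
    intro X Z h
    obtain ⟨h1, h2, h3, h4, h5⟩ := hsc X Z h
    obtain ⟨Bad, hB1, hB2, hB3⟩ := hMT.m3 Z X h.dZ (h40.trans h.dX) h1 h.le h.hi
    refine le_trans (Nat.cast_le.2 (Finset.card_le_card (t := Bad) ?_)) (hB2.trans ?_)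
    · intro x hx
      simp only [Finset.mem_filter] at hx
      obtain ⟨hx1, hx2, hx3⟩ := hx
      by_contra hcon
      have h7 := hB3 x hx1 hcon hx2
      rw [hQb] at h7
      exact absurd hx3 (not_lt.2 h7)
    rw [hQc]
    have hX : (X:ℝ) ≤ n := by exact_mod_cast h.hi
    have h8 : 0 ≤ (n:ℝ) ^ (-c) := Real.rpow_nonneg hn0.le _
    calc (X:ℝ) * (n:ℝ) ^ (-c) ≤ (n:ℝ) * (n:ℝ) ^ (-c) := by gcongr
      _ = (n:ℝ) ^ (1 - c) := by
          rw [show (1:ℝ) - c = 1 + (-c) by ring, Real.rpow_add hn0, Real.rpow_one]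

end Pool.Agent.H37T
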